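import Pool.Agent.Helper14.LE.Stmts

/-!
# MP_08fe4e_an, module GREP: Green representation of test functions
-/

open MeasureTheory Set Filter Topology InnerProductSpace Laplacian Module

noncomputable section

namespace LEP.GREP

lemma cont_mul {D : Set ℂ} (hD : IsOpen D) {a b : ℂ → ℝ} (ha : ContinuousOn a D)
    (hb : Continuous b) (hs : tsupport b ⊆ D) : Continuous (fun x => a x * b x) := by
  refine (ha.mul hb.continuousOn).continuous_of_tsupport_subset hD ?_
  exact (tsupport_mul_subset_right (f := a) (g := b)).trans hs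

lemma int_mul {D : Set ℂ} (hD : IsOpen D) {a b : ℂ → ℝ} (ha : ContinuousOn a D)
    (hb : Continuous b) (hc : HasCompactSupport b) (hs : tsupport b ⊆ D) :
    Integrable (fun x => a x * b x) :=
  (cont_mul hD ha hb hs).integrable_of_hasCompactSupport hc.mul_left

/-- directional derivative -/
def dd (φ : ℂ → ℝ) (v x : ℂ) : ℝ := fderiv ℝ φ x v

/-- second directional derivative -/
def dd2 (φ : ℂ → ℝ) (v x : ℂ) : ℝ := fderiv ℝ (fderiv ℝ φ) x v v

lemma dd_line {φ : ℂ → ℝ} {x : ℂ} (hφ : DifferentiableAt ℝ φ x) (v : ℂ) :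
    HasLineDerivAt ℝ φ (dd φ v x) x v := hφ.hasFDerivAt.hasLineDerivAt v

lemma dd2_line {φ : ℂ → ℝ} {x : ℂ} (hφ : DifferentiableAt ℝ (fderiv ℝ φ) x) (v : ℂ) :
    HasLineDerivAt ℝ (dd φ v) (dd2 φ v x) x v := by
  have h := (hφ.hasFDerivAt.clm_apply (hasFDerivAt_const v x)).hasLineDerivAt v
  have e : ((fderiv ℝ φ x).comp (0 : ℂ →L[ℝ] ℂ) +
      (fderiv ℝ (fderiv ℝ φ) x).flip v) v = dd2 φ v x := by
    simp [dd2]
  rw [e] at h
  exact h

lemma tsupport_dd (φ : ℂ → ℝ) (v : ℂ) : tsupport (dd φ v) ⊆ tsupport φ := by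
  refine closure_minimal ?_ isClosed_closure
  intro x hx
  have h : x ∈ Function.support (fderiv ℝ φ) := by
    intro h0
    apply hx
    simp [dd, h0]
  exact support_fderiv_subset ℝ h

lemma tsupport_dd2 (φ : ℂ → ℝ) (v : ℂ) : tsupport (dd2 φ v) ⊆ tsupport φ := by
  refine closure_minimal ?_ isClosed_closure
  intro x hx
  have h : x ∈ Function.support (fderiv ℝ (fderiv ℝ φ)) := by
    intro h0
    apply hx
    simp [dd2, h0]
  exact (tsupport_fderiv_subset ℝ (f := φ)) (support_fderiv_subset ℝ h)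

lemma cont_dd {φ : ℂ → ℝ} (hφ : ContDiff ℝ 2 φ) (v : ℂ) : Continuous (dd φ v) := by
  have h : Continuous (fderiv ℝ φ) := hφ.continuous_fderiv (by norm_num)
  exact h.clm_apply continuous_const

lemma cont_dd2 {φ : ℂ → ℝ} (hφ : ContDiff ℝ 2 φ) (v : ℂ) : Continuous (dd2 φ v) := by
  have h1 : ContDiff ℝ 1 (fderiv ℝ φ) := hφ.fderiv_right (by norm_num)
  have h : Continuous (fderiv ℝ (fderiv ℝ φ)) := h1.continuous_fderiv (by norm_num)
  exact (h.clm_apply continuous_const).clm_apply continuous_const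

lemma compact_of_subset {a b : ℂ → ℝ} (hb : HasCompactSupport b) (h : tsupport a ⊆ tsupport b) :
    HasCompactSupport a := by
  exact IsCompact.of_isClosed_subset hb isClosed_closure h

/-- Integration by parts, twice in the direction `v`. -/
lemma ibp2 {D : Set ℂ} (hD : IsOpen D) {u u' u'' : ℂ → ℝ} {v : ℂ} {φ : ℂ → ℝ}
    (hφ : ContDiff ℝ 2 φ) (hc : HasCompactSupport φ) (hs : tsupport φ ⊆ D)
    (hu : ContinuousOn u D) (hu' : ContinuousOn u' D) (hu'' : ContinuousOn u'' D)
    (h1 : ∀ x ∈ D, HasLineDerivAt ℝ u (u' x) x v)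
    (h2 : ∀ x ∈ D, HasLineDerivAt ℝ u' (u'' x) x v) :
    ∫ x, u x * dd2 φ v x = ∫ x, u'' x * φ x := by
  have s1 : tsupport (dd φ v) ⊆ D := (tsupport_dd φ v).trans hs
  have s2 : tsupport (dd2 φ v) ⊆ D := (tsupport_dd2 φ v).trans hs
  have c1 : HasCompactSupport (dd φ v) := compact_of_subset hc (tsupport_dd φ v)
  have c2 : HasCompactSupport (dd2 φ v) := compact_of_subset hc (tsupport_dd2 φ v)
  have k1 := cont_dd hφ v
  have k2 := cont_dd2 hφ v
  have dφ : Differentiable ℝ φ := hφ.differentiable (by norm_num)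
  have dφ' : Differentiable ℝ (fderiv ℝ φ) :=
    (hφ.fderiv_right (m := 1) (by norm_num)).differentiable (by norm_num)
  have e1 := integral_bilinear_hasLineDerivAt_right_eq_neg_left_of_integrable
    (μ := (volume : Measure ℂ)) (f := u) (f' := u') (g := dd φ v) (g' := dd2 φ v) (v := v)
    (B := ContinuousLinearMap.mul ℝ ℝ)
    (by simpa using int_mul hD hu' k1 c1 s1) (by simpa using int_mul hD hu k2 c2 s2)
    (by simpa using int_mul hD hu k1 c1 s1)
    (fun x hx => h1 x (s1 hx)) (fun x _ => dd2_line (dφ' x) v)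
  have e2 := integral_bilinear_hasLineDerivAt_right_eq_neg_left_of_integrable
    (μ := (volume : Measure ℂ)) (f := u') (f' := u'') (g := φ) (g' := dd φ v) (v := v)
    (B := ContinuousLinearMap.mul ℝ ℝ)
    (by simpa using int_mul hD hu'' hφ.continuous hc hs) (by simpa using int_mul hD hu' k1 c1 s1)
    (by simpa using int_mul hD hu' hφ.continuous hc hs)
    (fun x hx => h2 x (hs hx)) (fun x _ => dd_line (dφ x) v)
  simp only [ContinuousLinearMap.mul_apply'] at e1 e2
  rw [e1, e2, neg_neg]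

lemma lap_eq (φ : ℂ → ℝ) (x : ℂ) : (Δ φ) x = dd2 φ 1 x + dd2 φ Complex.I x := by
  rw [laplacian_eq_iteratedFDeriv_complexPlane]
  simp [iteratedFDeriv_two_apply, dd2]

lemma tsupport_lap (φ : ℂ → ℝ) : tsupport (Δ φ) ⊆ tsupport φ := by
  refine closure_minimal ?_ isClosed_closure
  intro x hx
  by_contra h
  apply hx
  rw [lap_eq]
  have a1 : dd2 φ 1 x = 0 := image_eq_zero_of_notMem_tsupport (fun h' => h (tsupport_dd2 φ 1 h'))
  have a2 : dd2 φ Complex.I x = 0 :=
    image_eq_zero_of_notMem_tsupport (fun h' => h (tsupport_dd2 φ _ h'))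
  rw [a1, a2, add_zero]

lemma cont_lap {φ : ℂ → ℝ} (hφ : ContDiff ℝ 2 φ) : Continuous (Δ φ) := by
  have : (Δ φ) = fun x => dd2 φ 1 x + dd2 φ Complex.I x := by
    ext x; exact lap_eq φ x
  rw [this]
  exact (cont_dd2 hφ 1).add (cont_dd2 hφ _)

lemma compact_lap {φ : ℂ → ℝ} (hc : HasCompactSupport φ) : HasCompactSupport (Δ φ) :=
  compact_of_subset hc (tsupport_lap φ)

/-- Green's second identity against a test function. -/
lemma green {D : Set ℂ} (hD : IsOpen D) {u u1 u2 w1 w2 : ℂ → ℝ} {φ : ℂ → ℝ}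
    (hφ : ContDiff ℝ 2 φ) (hc : HasCompactSupport φ) (hs : tsupport φ ⊆ D)
    (hu : ContinuousOn u D) (hu1 : ContinuousOn u1 D) (hw1 : ContinuousOn w1 D)
    (hu2 : ContinuousOn u2 D) (hw2 : ContinuousOn w2 D)
    (h1 : ∀ x ∈ D, HasLineDerivAt ℝ u (u1 x) x 1)
    (h2 : ∀ x ∈ D, HasLineDerivAt ℝ u (u2 x) x Complex.I)
    (h3 : ∀ x ∈ D, HasLineDerivAt ℝ u1 (w1 x) x 1)
    (h4 : ∀ x ∈ D, HasLineDerivAt ℝ u2 (w2 x) x Complex.I) :
    ∫ x, u x * (Δ φ) x = ∫ x, (w1 x + w2 x) * φ x := by
  have e1 := ibp2 hD hφ hc hs hu hu1 hw1 h1 h3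
  have e2 := ibp2 hD hφ hc hs hu hu2 hw2 h2 h4
  have i1 : Integrable (fun x => u x * dd2 φ 1 x) :=
    int_mul hD hu (cont_dd2 hφ 1) (compact_of_subset hc (tsupport_dd2 φ 1))
      ((tsupport_dd2 φ 1).trans hs)
  have i2 : Integrable (fun x => u x * dd2 φ Complex.I x) :=
    int_mul hD hu (cont_dd2 hφ _) (compact_of_subset hc (tsupport_dd2 φ _))
      ((tsupport_dd2 φ _).trans hs)
  have i3 : Integrable (fun x => w1 x * φ x) := int_mul hD hw1 hφ.continuous hc hs
  have i4 : Integrable (fun x => w2 x * φ x) := int_mul hD hw2 hφ.continuous hc hs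
  simp_rw [lap_eq, mul_add, add_mul]
  rw [integral_add i1 i2, integral_add i3 i4, e1, e2]

/-- Harmonic functions are orthogonal to Laplacians of test functions. -/
lemma green_harm {D : Set ℂ} (hD : IsOpen D) {u : ℂ → ℝ} (hu : HarmonicOnNhd u D) {φ : ℂ → ℝ}
    (hφ : ContDiff ℝ 2 φ) (hc : HasCompactSupport φ) (hs : tsupport φ ⊆ D) :
    ∫ x, u x * (Δ φ) x = 0 := by
  have cd : ∀ x ∈ D, ContDiffAt ℝ 2 u x := fun x hx => (hu x hx).1
  have cd1 : ∀ x ∈ D, ContDiffAt ℝ 1 (fderiv ℝ u) x :=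
    fun x hx => (cd x hx).fderiv_right (by norm_num)
  have d0 : ∀ x ∈ D, DifferentiableAt ℝ u x := fun x hx => (cd x hx).differentiableAt (by norm_num)
  have d1 : ∀ x ∈ D, DifferentiableAt ℝ (fderiv ℝ u) x :=
    fun x hx => (cd1 x hx).differentiableAt (by norm_num)
  have c0 : ContinuousOn u D := fun x hx => (cd x hx).continuousAt.continuousWithinAt
  have c1 : ∀ v, ContinuousOn (dd u v) D := fun v x hx =>
    (((cd1 x hx).continuousAt.clm_apply continuousAt_const)).continuousWithinAt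
  have c2 : ∀ v, ContinuousOn (dd2 u v) D := by
    intro v x hx
    have h0 : ContDiffAt ℝ 0 (fderiv ℝ (fderiv ℝ u)) x := (cd1 x hx).fderiv_right (by norm_num)
    exact ((h0.continuousAt.clm_apply continuousAt_const).clm_apply
      continuousAt_const).continuousWithinAt
  rw [green hD hφ hc hs c0 (c1 1) (c2 1) (c1 Complex.I) (c2 Complex.I)
    (fun x hx => dd_line (d0 x hx) 1) (fun x hx => dd_line (d0 x hx) _)
    (fun x hx => dd2_line (d1 x hx) 1) (fun x hx => dd2_line (d1 x hx) _)]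
  rw [← integral_zero ℂ ℝ]
  congr 1
  ext x
  by_cases hx : x ∈ D
  · have := (hu x hx).2.self_of_nhds
    rw [lap_eq] at this
    simp only [Pi.zero_apply] at this
    rw [this, zero_mul]
  · rw [image_eq_zero_of_notMem_tsupport (fun h => hx (hs h)), mul_zero]

/-- Regularised logarithm. -/
def Le (y : ℂ) (e : ℝ) (x : ℂ) : ℝ :=
  (1 / 2) * Real.log ((x.re - y.re) ^ 2 + (x.im - y.im) ^ 2 + e ^ 2)

/-- The denominator. -/
def qe (y : ℂ) (e : ℝ) (x : ℂ) : ℝ := (x.re - y.re) ^ 2 + (x.im - y.im) ^ 2 + e ^ 2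

lemma qe_pos (y : ℂ) {e : ℝ} (he : e ≠ 0) (x : ℂ) : 0 < qe y e x := by
  unfold qe; positivity

lemma cont_qe (y : ℂ) (e : ℝ) : Continuous (qe y e) := by
  unfold qe; fun_prop

lemma line_of_deriv {f : ℂ → ℝ} {f' : ℝ} {x v : ℂ} (h : HasDerivAt (fun t : ℝ => f (x + t • v)) f' 0) :
    HasLineDerivAt ℝ f f' x v := h

lemma qe_line1 (y : ℂ) (e : ℝ) (x : ℂ) :
    HasDerivAt (fun t : ℝ => qe y e (x + t • (1 : ℂ))) (2 * (x.re - y.re)) 0 := by
  have : (fun t : ℝ => qe y e (x + t • (1 : ℂ))) =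
      fun t => (x.re + t - y.re) ^ 2 + (x.im - y.im) ^ 2 + e ^ 2 := by
    ext t; simp [qe]
  rw [this]
  have h := (((((hasDerivAt_id (0 : ℝ)).const_add x.re).sub_const y.re).pow 2).add_const
    ((x.im - y.im) ^ 2)).add_const (e ^ 2)
  simpa using h

lemma qe_line2 (y : ℂ) (e : ℝ) (x : ℂ) :
    HasDerivAt (fun t : ℝ => qe y e (x + t • Complex.I)) (2 * (x.im - y.im)) 0 := by
  have : (fun t : ℝ => qe y e (x + t • Complex.I)) =
      fun t => (x.re - y.re) ^ 2 + (x.im + t - y.im) ^ 2 + e ^ 2 := by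
    ext t; simp [qe]
  rw [this]
  have h := (((((hasDerivAt_id (0 : ℝ)).const_add x.im).sub_const y.im).pow 2).const_add
    ((x.re - y.re) ^ 2)).add_const (e ^ 2)
  simpa using h

lemma Le_line1 (y : ℂ) {e : ℝ} (he : e ≠ 0) (x : ℂ) :
    HasLineDerivAt ℝ (Le y e) ((x.re - y.re) / qe y e x) x 1 := by
  refine line_of_deriv ?_
  have hq := (qe_pos y he x).ne'
  have h := ((qe_line1 y e x).log (by simpa using hq)).const_mul (1 / 2)
  refine h.congr_deriv ?_
  simp only [zero_smul, add_zero]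
  field_simp

lemma Le_line2 (y : ℂ) {e : ℝ} (he : e ≠ 0) (x : ℂ) :
    HasLineDerivAt ℝ (Le y e) ((x.im - y.im) / qe y e x) x Complex.I := by
  refine line_of_deriv ?_
  have hq := (qe_pos y he x).ne'
  have h := ((qe_line2 y e x).log (by simpa using hq)).const_mul (1 / 2)
  refine h.congr_deriv ?_
  simp only [zero_smul, add_zero]
  field_simp

lemma Le_line11 (y : ℂ) {e : ℝ} (he : e ≠ 0) (x : ℂ) :
    HasLineDerivAt ℝ (fun x => (x.re - y.re) / qe y e x)
      ((qe y e x - 2 * (x.re - y.re) ^ 2) / qe y e x ^ 2) x 1 := by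
  refine line_of_deriv ?_
  have hq := (qe_pos y he x).ne'
  have h0 : HasDerivAt (fun t : ℝ => (x + t • (1 : ℂ)).re - y.re) 1 0 := by
    have : (fun t : ℝ => (x + t • (1 : ℂ)).re - y.re) = fun t => x.re + t - y.re := by
      ext t; simp
    rw [this]
    exact ((hasDerivAt_id (0 : ℝ)).const_add x.re).sub_const y.re
  have h := h0.div (qe_line1 y e x) (by simpa using hq)
  refine h.congr_deriv ?_
  simp only [zero_smul, add_zero]
  ring

lemma Le_line22 (y : ℂ) {e : ℝ} (he : e ≠ 0) (x : ℂ) :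
    HasLineDerivAt ℝ (fun x => (x.im - y.im) / qe y e x)
      ((qe y e x - 2 * (x.im - y.im) ^ 2) / qe y e x ^ 2) x Complex.I := by
  refine line_of_deriv ?_
  have hq := (qe_pos y he x).ne'
  have h0 : HasDerivAt (fun t : ℝ => (x + t • Complex.I).im - y.im) 1 0 := by
    have : (fun t : ℝ => (x + t • Complex.I).im - y.im) = fun t => x.im + t - y.im := by
      ext t; simp
    rw [this]
    exact ((hasDerivAt_id (0 : ℝ)).const_add x.im).sub_const y.im
  have h := h0.div (qe_line2 y e x) (by simpa using hq)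
  refine h.congr_deriv ?_
  simp only [zero_smul, add_zero]
  ring

lemma cont_Le (y : ℂ) {e : ℝ} (he : e ≠ 0) : Continuous (Le y e) := by
  have : Le y e = fun x => (1 / 2) * Real.log (qe y e x) := rfl
  rw [this]
  exact continuous_const.mul ((cont_qe y e).log (fun x => (qe_pos y he x).ne'))

/-- Green identity for the regularised logarithm. -/
lemma green_Le (y : ℂ) {e : ℝ} (he : e ≠ 0) {φ : ℂ → ℝ} (hφ : ContDiff ℝ 2 φ)
    (hc : HasCompactSupport φ) :
    ∫ x, Le y e x * (Δ φ) x = ∫ x, (2 * e ^ 2 / qe y e x ^ 2) * φ x := by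
  have hq : ∀ x, qe y e x ≠ 0 := fun x => (qe_pos y he x).ne'
  have cq := cont_qe y e
  have c1 : Continuous (fun x : ℂ => (x.re - y.re) / qe y e x) :=
    (Complex.continuous_re.sub continuous_const).div cq hq
  have c2 : Continuous (fun x : ℂ => (x.im - y.im) / qe y e x) :=
    (Complex.continuous_im.sub continuous_const).div cq hq
  have c11 : Continuous (fun x : ℂ => (qe y e x - 2 * (x.re - y.re) ^ 2) / qe y e x ^ 2) :=
    (cq.sub (continuous_const.mul ((Complex.continuous_re.sub continuous_const).pow 2))).div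
      (cq.pow 2) (fun x => pow_ne_zero 2 (hq x))
  have c22 : Continuous (fun x : ℂ => (qe y e x - 2 * (x.im - y.im) ^ 2) / qe y e x ^ 2) :=
    (cq.sub (continuous_const.mul ((Complex.continuous_im.sub continuous_const).pow 2))).div
      (cq.pow 2) (fun x => pow_ne_zero 2 (hq x))
  rw [green isOpen_univ hφ hc (subset_univ _) (cont_Le y he).continuousOn c1.continuousOn
    c11.continuousOn c2.continuousOn c22.continuousOn (fun x _ => Le_line1 y he x)
    (fun x _ => Le_line2 y he x) (fun x _ => Le_line11 y he x) (fun x _ => Le_line22 y he x)]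
  congr 1
  ext x
  congr 1
  rw [← add_div]
  congr 1
  unfold qe
  ring

/-- The standard kernel. -/
def KK (z : ℂ) : ℝ := 2 / (‖z‖ ^ 2 + 1) ^ 2

lemma anti (t : ℝ) : HasDerivAt (fun t : ℝ => -(1 / (t ^ 2 + 1))) (t * (2 / (t ^ 2 + 1) ^ 2)) t := by
  have h0 : t ^ 2 + 1 ≠ 0 := by positivity
  have h := (((hasDerivAt_id t).pow 2).add_const 1)
  have h1 := (h.inv h0).neg
  have e : (fun t : ℝ => -(1 / (t ^ 2 + 1))) = -((id ^ 2 + fun _ => (1 : ℝ)) : ℝ → ℝ)⁻¹ := by
    ext s
    simp
  rw [e]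
  refine (h1.congr_deriv ?_)
  simp
  field_simp

lemma anti_lim : Tendsto (fun t : ℝ => -(1 / (t ^ 2 + 1))) atTop (𝓝 0) := by
  have h1 : Tendsto (fun t : ℝ => t ^ 2 + 1) atTop atTop :=
    tendsto_atTop_add_const_right _ _ (tendsto_pow_atTop (by norm_num))
  have h2 := (tendsto_inv_atTop_zero.comp h1).neg
  simpa [Function.comp_def] using h2

lemma KK_int : Integrable KK := by
  have h := (integrable_fun_norm_addHaar (E := ℂ) (volume : Measure ℂ)
    (f := fun t : ℝ => 2 / (t ^ 2 + 1) ^ 2)).2 ?_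
  · exact h
  · rw [Complex.finrank_real_complex]
    have := integrableOn_Ioi_deriv_of_nonneg' (a := 0) (fun x _ => anti x)
      (fun x hx => by have : (0:ℝ) < x := hx; positivity) anti_lim
    simpa using this

lemma KK_integral : ∫ z, KK z = 2 * Real.pi := by
  have h := integral_fun_norm_addHaar (E := ℂ) (volume : Measure ℂ)
    (fun t : ℝ => 2 / (t ^ 2 + 1) ^ 2)
  have h1 := integral_Ioi_of_hasDerivAt_of_nonneg' (a := 0) (fun x _ => anti x)
      (fun x hx => by have : (0:ℝ) < x := hx; positivity) anti_lim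
  unfold KK
  rw [h, Complex.finrank_real_complex]
  simp only [Nat.add_one_sub_one, pow_one, smul_eq_mul, nsmul_eq_mul, Nat.cast_ofNat]
  rw [h1]
  simp [Measure.real, Complex.volume_ball]

/-- The Poisson-type convergence. -/
lemma conv1 (y : ℂ) {φ : ℂ → ℝ} (hφ : ContDiff ℝ 2 φ) (hc : HasCompactSupport φ) :
    Tendsto (fun e : ℝ => ∫ x, (2 * e ^ 2 / qe y e x ^ 2) * φ x) (𝓝[>] 0)
      (𝓝 (2 * Real.pi * φ y)) := by
  have hcongr : ∀ e : ℝ, 0 < e → ∫ x, (2 * e ^ 2 / qe y e x ^ 2) * φ x =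
      ∫ z, KK z * φ (y + e • z) := by
    intro e he
    have e1 : ∫ x, (2 * e ^ 2 / qe y e x ^ 2) * φ x =
        ∫ x, (2 * e ^ 2 / qe y e (y + x) ^ 2) * φ (y + x) :=
      (integral_add_left_eq_self (μ := (volume : Measure ℂ))
        (fun x => (2 * e ^ 2 / qe y e x ^ 2) * φ x) y).symm
    have e2 := Measure.integral_comp_smul (volume : Measure ℂ)
      (fun x => (2 * e ^ 2 / qe y e (y + x) ^ 2) * φ (y + x)) e
    rw [Complex.finrank_real_complex] at e2
    rw [e1]
    have e3 : ∫ x, (2 * e ^ 2 / qe y e (y + x) ^ 2) * φ (y + x) =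
        e ^ 2 * ∫ x, (2 * e ^ 2 / qe y e (y + e • x) ^ 2) * φ (y + e • x) := by
      rw [e2, smul_eq_mul, abs_of_pos (by positivity), ← mul_assoc, mul_inv_cancel₀ (by positivity),
        one_mul]
    rw [e3, ← integral_const_mul]
    congr 1
    ext z
    have hq : qe y e (y + e • z) = e ^ 2 * (‖z‖ ^ 2 + 1) := by
      unfold qe
      rw [Complex.sq_norm, Complex.normSq_apply]
      simp
      ring
    rw [hq]
    unfold KK
    have : (0:ℝ) < ‖z‖ ^ 2 + 1 := by positivity
    field_simp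
  obtain ⟨M, hM⟩ := hc.exists_bound_of_continuous hφ.continuous
  have lim : Tendsto (fun e : ℝ => ∫ z, KK z * φ (y + e • z)) (𝓝[>] 0)
      (𝓝 (∫ z, KK z * φ y)) := by
    have cK : Continuous KK := by
      unfold KK
      exact continuous_const.div (by fun_prop) (fun z => by positivity)
    refine tendsto_integral_filter_of_dominated_convergence (fun z => KK z * M) ?_ ?_
      (KK_int.mul_const M) ?_
    · refine Eventually.of_forall (fun e => ?_)
      exact (cK.mul (hφ.continuous.comp (by fun_prop))).aestronglyMeasurable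
    · refine Eventually.of_forall (fun e => Eventually.of_forall (fun z => ?_))
      rw [norm_mul]
      have : 0 ≤ KK z := by unfold KK; positivity
      rw [Real.norm_of_nonneg this]
      exact mul_le_mul_of_nonneg_left (hM _) this
    · refine Eventually.of_forall (fun z => ?_)
      have hcont : Continuous (fun e : ℝ => KK z * φ (y + e • z)) :=
        continuous_const.mul (hφ.continuous.comp (by fun_prop))
      have := hcont.tendsto 0
      simp only [zero_smul, add_zero] at this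
      exact this.mono_left nhdsWithin_le_nhds
  rw [integral_mul_const, KK_integral] at lim
  refine lim.congr' ?_
  filter_upwards [self_mem_nhdsWithin] with e he
  exact (hcongr e he).symm

lemma log_locInt : LocallyIntegrable (fun x : ℂ => Real.log ‖x‖) := by
  rw [locallyIntegrable_iff]
  intro K hK
  obtain ⟨r, hr⟩ := hK.isBounded.subset_ball 0
  refine IntegrableOn.mono_set ?_ hr
  rw [integrableOn_fun_norm_addHaar (E := ℂ) (volume : Measure ℂ) (f := Real.log),
    Complex.finrank_real_complex]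
  have : Continuous (fun y : ℝ => y ^ (2 - 1) • Real.log y) := by
    simpa using Real.continuous_mul_log
  exact (this.integrableOn_Icc (a := 0) (b := r)).mono_set Ioo_subset_Icc_self

lemma log_int (y : ℂ) {b : ℂ → ℝ} (hb : Continuous b) (hc : HasCompactSupport b) :
    Integrable (fun x => Real.log ‖x - y‖ * b x) := by
  have hb' : Continuous (fun x => b (x + y)) := hb.comp (continuous_id.add continuous_const)
  have hc' : HasCompactSupport (fun x => b (x + y)) :=
    hc.comp_homeomorph (Homeomorph.addRight y)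
  have h := log_locInt.integrable_smul_right_of_hasCompactSupport (μ := (volume : Measure ℂ))
    hb' hc'
  have h2 := h.comp_sub_right y
  refine h2.congr (Eventually.of_forall (fun x => ?_))
  simp [smul_eq_mul]

lemma Le_bound (y : ℂ) {e : ℝ} (he0 : 0 < e) (he : e ≤ 1) {x : ℂ} (hx : x ≠ y) :
    |Le y e x| ≤ |Real.log ‖x - y‖| + (1 / 2) * Real.log (‖x - y‖ ^ 2 + 1) := by
  have h1 : (x.re - y.re) ^ 2 + (x.im - y.im) ^ 2 = ‖x - y‖ ^ 2 := by
    rw [Complex.sq_norm, Complex.normSq_apply]; simp; ring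
  have hn : 0 < ‖x - y‖ := norm_pos_iff.2 (sub_ne_zero.2 hx)
  have hle : Le y e x = (1 / 2) * Real.log (‖x - y‖ ^ 2 + e ^ 2) := by
    unfold Le; rw [h1]
  have e2 : e ^ 2 ≤ 1 := by nlinarith
  have hup : Le y e x ≤ (1 / 2) * Real.log (‖x - y‖ ^ 2 + 1) := by
    rw [hle]
    exact mul_le_mul_of_nonneg_left (Real.log_le_log (by positivity) (by linarith)) (by norm_num)
  have hlo : Real.log ‖x - y‖ ≤ Le y e x := by
    rw [hle]
    have : Real.log ‖x - y‖ = (1 / 2) * Real.log (‖x - y‖ ^ 2) := by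
      rw [Real.log_pow]; push_cast; ring
    rw [this]
    exact mul_le_mul_of_nonneg_left
      (Real.log_le_log (by positivity) (by nlinarith [sq_nonneg e])) (by norm_num)
  have hpos : 0 ≤ (1 / 2) * Real.log (‖x - y‖ ^ 2 + 1) :=
    mul_nonneg (by norm_num) (Real.log_nonneg (by nlinarith [sq_nonneg ‖x - y‖]))
  rw [abs_le]
  constructor
  · have := neg_abs_le (Real.log ‖x - y‖)
    linarith
  · have := abs_nonneg (Real.log ‖x - y‖)
    linarith

lemma conv2 (y : ℂ) {b : ℂ → ℝ} (hb : Continuous b) (hc : HasCompactSupport b) :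
    Tendsto (fun e : ℝ => ∫ x, Le y e x * b x) (𝓝[>] 0) (𝓝 (∫ x, Real.log ‖x - y‖ * b x)) := by
  have hae : ∀ᵐ x : ℂ, x ≠ y := by
    have := measure_singleton (μ := (volume : Measure ℂ)) y
    exact compl_mem_ae_iff.2 this
  refine tendsto_integral_filter_of_dominated_convergence
    (fun x => (|Real.log ‖x - y‖| + (1 / 2) * Real.log (‖x - y‖ ^ 2 + 1)) * |b x|) ?_ ?_ ?_ ?_
  · filter_upwards [self_mem_nhdsWithin] with e he
    have he' : (0:ℝ) < e := he
    exact ((cont_Le y he'.ne').mul hb).aestronglyMeasurable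
  · filter_upwards [Ioc_mem_nhdsGT (zero_lt_one' ℝ)] with e he
    filter_upwards [hae] with x hx
    rw [norm_mul]
    exact mul_le_mul_of_nonneg_right (Le_bound y he.1 he.2 hx) (abs_nonneg _)
  · have i1 : Integrable (fun x => |Real.log ‖x - y‖| * |b x|) := by
      refine (log_int y hb hc).norm.congr (Eventually.of_forall (fun x => ?_))
      simp [norm_mul]
    have i2 : Integrable (fun x : ℂ => ((1 / 2) * Real.log (‖x - y‖ ^ 2 + 1)) * |b x|) := by
      refine Continuous.integrable_of_hasCompactSupport ?_ ?_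
      · refine (continuous_const.mul (Continuous.log (by fun_prop) (fun x => ?_))).mul hb.abs
        positivity
      · exact (hc.abs).mul_left
    refine (i1.add i2).congr (Eventually.of_forall (fun x => ?_))
    simp only [Pi.add_apply]
    ring
  · filter_upwards [hae] with x hx
    have h1 : (x.re - y.re) ^ 2 + (x.im - y.im) ^ 2 = ‖x - y‖ ^ 2 := by
      rw [Complex.sq_norm, Complex.normSq_apply]; simp; ring
    have hn : 0 < ‖x - y‖ := norm_pos_iff.2 (sub_ne_zero.2 hx)
    have hle : ∀ e, Le y e x = (1 / 2) * Real.log (‖x - y‖ ^ 2 + e ^ 2) := by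
      intro e; unfold Le; rw [h1]
    have hlog : Real.log ‖x - y‖ = (1 / 2) * Real.log (‖x - y‖ ^ 2 + 0 ^ 2) := by
      rw [zero_pow (by norm_num), add_zero, Real.log_pow]; push_cast; ring
    simp_rw [hle]
    rw [hlog]
    have hcont : ContinuousAt (fun e : ℝ => (1 / 2) * Real.log (‖x - y‖ ^ 2 + e ^ 2) * b x) 0 := by
      have : ContinuousAt (fun e : ℝ => Real.log (‖x - y‖ ^ 2 + e ^ 2)) 0 := by
        refine ContinuousAt.log (by fun_prop) ?_
        positivity
      exact (continuousAt_const.mul this).mul continuousAt_const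
    exact hcont.tendsto.mono_left nhdsWithin_le_nhds

/-- The logarithm is a fundamental solution. -/
lemma log_fund (y : ℂ) {φ : ℂ → ℝ} (hφ : ContDiff ℝ 2 φ) (hc : HasCompactSupport φ) :
    ∫ x, Real.log ‖x - y‖ * (Δ φ) x = 2 * Real.pi * φ y := by
  have h1 := conv2 y (cont_lap hφ) (compact_lap hc)
  have h2 := conv1 y hφ hc
  refine tendsto_nhds_unique h1 (h2.congr' ?_)
  filter_upwards [self_mem_nhdsWithin] with e he
  have he' : (0:ℝ) < e := he
  exact (green_Le y he'.ne' hφ hc).symm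

end LEP.GREP

namespace LEP

open GREP in
/-- **GREP** -/
theorem st_GREP : ST_GREP := by
  intro D g φ hD hg hφ hc hs y hy
  obtain ⟨h, hcont, hharm, hrep⟩ := hg.reg
  have hu := hharm y hy
  have cL := cont_lap hφ
  have kL := compact_lap hc
  have sL : tsupport (Δ φ) ⊆ D := (tsupport_lap φ).trans hs
  have hcu : ContinuousOn (fun x => h x y) D := hu.continuousOn
  have i1 : Integrable (fun x => h x y * (Δ φ) x) := int_mul hD hcu cL kL sL
  have i2 : Integrable (fun x => Real.log ‖x - y‖ * (Δ φ) x) := log_int y cL kL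
  have i3 : Integrable (fun x => h x y * (Δ φ) x -
      (1 / (2 * Real.pi)) * (Real.log ‖x - y‖ * (Δ φ) x)) := i1.sub (i2.const_mul _)
  have hae : ∀ᵐ x : ℂ, x ≠ y := by
    have := measure_singleton (μ := (volume : Measure ℂ)) y
    exact compl_mem_ae_iff.2 this
  have hcongr : (fun x => h x y * (Δ φ) x -
      (1 / (2 * Real.pi)) * (Real.log ‖x - y‖ * (Δ φ) x)) =ᵐ[volume.restrict D]
      fun x => g x y * (Δ φ) x := by
    have h1 : ∀ᵐ x ∂(volume.restrict D), x ≠ y := ae_restrict_of_ae hae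
    filter_upwards [h1, ae_restrict_mem hD.measurableSet] with x hx hxD
    rw [hrep x hxD y hy hx]
    ring
  refine ⟨(i3.integrableOn).congr hcongr, ?_⟩
  rw [← integral_congr_ae hcongr]
  have hzero : ∀ x, x ∉ D → h x y * (Δ φ) x -
      (1 / (2 * Real.pi)) * (Real.log ‖x - y‖ * (Δ φ) x) = 0 := by
    intro x hx
    rw [image_eq_zero_of_notMem_tsupport (fun h' => hx (sL h'))]
    ring
  rw [setIntegral_eq_integral_of_forall_compl_eq_zero hzero,
    integral_sub i1 (i2.const_mul _), integral_const_mul, log_fund y hφ hc,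
    green_harm hD hu hφ hc hs]
  have := Real.pi_pos
  field_simp
  ring

end LEP
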