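import Pool.Agent.Helper14.LE.Stmts2

/-!
# MP_08fe4e_an, module LIFT: Laplacian of a lifted function
-/

open MeasureTheory Set Filter Topology InnerProductSpace Laplacian Module

noncomputable section

namespace LEP.LIFT

/-- `f` is twice differentiable at `t` with derivatives `a`, `b`. -/
def D2 (f : ℝ → ℝ) (t a b : ℝ) : Prop :=
  ∃ g : ℝ → ℝ, (∀ᶠ s in 𝓝 t, HasDerivAt f (g s) s) ∧ g t = a ∧ HasDerivAt g b t

lemma D2.unique {f : ℝ → ℝ} {t a b a' b' : ℝ} (h : D2 f t a b) (h' : D2 f t a' b') :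
    a = a' ∧ b = b' := by
  obtain ⟨g, h1, h2, h3⟩ := h
  obtain ⟨g', h1', h2', h3'⟩ := h'
  have e : g =ᶠ[𝓝 t] g' := by
    filter_upwards [h1, h1'] with s hs hs'
    exact hs.unique hs'
  refine ⟨by rw [← h2, ← h2']; exact e.self_of_nhds, ?_⟩
  exact h3.unique (h3'.congr_of_eventuallyEq e)

lemma D2.congr {f f' : ℝ → ℝ} {t a b : ℝ} (h : D2 f t a b) (e : f' =ᶠ[𝓝 t] f) : D2 f' t a b := by
  obtain ⟨g, h1, h2, h3⟩ := h
  refine ⟨g, ?_, h2, h3⟩
  filter_upwards [h1, e.eventually_nhds] with s hs hs'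
  exact hs.congr_of_eventuallyEq hs'

lemma D2.comp {f u : ℝ → ℝ} {t a b c d : ℝ} (h : D2 f (u t) a b) (hu : D2 u t c d) :
    D2 (fun s => f (u s)) t (a * c) (b * c * c + a * d) := by
  obtain ⟨g, h1, h2, h3⟩ := h
  obtain ⟨k, k1, k2, k3⟩ := hu
  have hc : ContinuousAt u t := k1.self_of_nhds.continuousAt
  refine ⟨fun s => g (u s) * k s, ?_, by simp only [h2, k2], ?_⟩
  · filter_upwards [k1, hc.eventually h1] with s hs hs'
    exact hs'.comp s hs
  · have e1 : HasDerivAt (fun s => g (u s)) (b * c) t := by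
      have := h3.comp t k1.self_of_nhds
      rw [k2] at this
      exact this
    have := e1.mul k3
    rw [k2, h2] at this
    exact this

lemma D2.mul {f u : ℝ → ℝ} {t a b c d : ℝ} (h : D2 f t a b) (hu : D2 u t c d) :
    D2 (fun s => f s * u s) t (a * u t + f t * c) (b * u t + 2 * a * c + f t * d) := by
  obtain ⟨g, h1, h2, h3⟩ := h
  obtain ⟨k, k1, k2, k3⟩ := hu
  refine ⟨fun s => g s * u s + f s * k s, ?_, by simp only [h2, k2], ?_⟩
  · filter_upwards [h1, k1] with s hs hs'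
    exact hs.mul hs'
  · have e1 := h3.mul k1.self_of_nhds
    have e2 := h1.self_of_nhds.mul k3
    have := e1.add e2
    refine this.congr_deriv ?_
    rw [h2, k2]
    ring

lemma D2.const (c t : ℝ) : D2 (fun _ => c) t 0 0 :=
  ⟨fun _ => 0, Eventually.of_forall (fun s => hasDerivAt_const s c), rfl, hasDerivAt_const t 0⟩

lemma D2.inv {t : ℝ} (ht : t ≠ 0) : D2 (fun s => s⁻¹) t (-(t ^ 2)⁻¹) (2 * (t ^ 3)⁻¹) := by
  refine ⟨fun s => -(s ^ 2)⁻¹, ?_, rfl, ?_⟩
  · filter_upwards [isOpen_ne.mem_nhds ht] with s hs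
    exact hasDerivAt_inv hs
  · have h := ((hasDerivAt_pow 2 t).inv (pow_ne_zero 2 ht)).neg
    refine h.congr_deriv ?_
    field_simp
    push_cast
    ring

lemma D2.sqrt {t : ℝ} (ht : 0 < t) :
    D2 (fun s => Real.sqrt s) t (1 / (2 * Real.sqrt t)) (-(1 / (4 * Real.sqrt t ^ 3))) := by
  refine ⟨fun s => 1 / (2 * Real.sqrt s), ?_, rfl, ?_⟩
  · filter_upwards [isOpen_ne.mem_nhds ht.ne'] with s hs
    exact Real.hasDerivAt_sqrt hs
  · have hs : 0 < Real.sqrt t := Real.sqrt_pos.2 ht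
    have h := ((Real.hasDerivAt_sqrt ht.ne').const_mul 2).inv (by positivity)
    have e : (fun s => 1 / (2 * Real.sqrt s)) = (fun s => 2 * Real.sqrt s)⁻¹ := by
      ext s; simp
    rw [e]
    refine h.congr_deriv ?_
    field_simp
    ring

/-- the quadratic `A + 2 B t + t²`. -/
lemma D2.quad (A B : ℝ) : D2 (fun t => A + 2 * B * t + t ^ 2) 0 (2 * B) 2 := by
  refine ⟨fun t => 2 * B + 2 * t, ?_, by simp, ?_⟩
  · refine Eventually.of_forall (fun s => ?_)
    have h := (((hasDerivAt_id s).const_mul (2 * B)).const_add A).add ((hasDerivAt_id s).pow 2)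
    refine h.congr_deriv ?_
    simp
  · have h := ((hasDerivAt_id (0:ℝ)).const_mul 2).const_add (2 * B)
    simpa using h

/-- from second order Fréchet differentiability. -/
lemma D2.of_contDiffAt {E : Type} [NormedAddCommGroup E] [NormedSpace ℝ E] {f : E → ℝ} {x : E}
    (hf : ContDiffAt ℝ 2 f x) (v : E) :
    D2 (fun t => f (x + t • v)) 0 (fderiv ℝ f x v) (fderiv ℝ (fderiv ℝ f) x v v) := by
  have hl : ∀ s : ℝ, HasDerivAt (fun t : ℝ => x + t • v) v s := by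
    intro s
    have := ((hasDerivAt_id s).smul_const v).const_add x
    simpa using this
  have hc : ContinuousAt (fun t : ℝ => x + t • v) 0 := (hl 0).continuousAt
  have hx0 : x + (0:ℝ) • v = x := by simp
  refine ⟨fun t => fderiv ℝ f (x + t • v) v, ?_, by simp, ?_⟩
  · have h1 : ∀ᶠ y in 𝓝 x, ContDiffAt ℝ 2 f y := hf.eventually (by simp)
    have h2 : ∀ᶠ t in 𝓝 (0:ℝ), ContDiffAt ℝ 2 f (x + t • v) := by
      refine hc.eventually ?_
      simp only [hx0]; exact h1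
    filter_upwards [h2] with t ht
    exact (ht.differentiableAt (by norm_num)).hasFDerivAt.comp_hasDerivAt t (hl t)
  · have h3 : DifferentiableAt ℝ (fderiv ℝ f) x :=
      (hf.fderiv_right (m := 1) (by norm_num)).differentiableAt (by norm_num)
    have h4 : HasFDerivAt (fderiv ℝ f) (fderiv ℝ (fderiv ℝ f) x) (x + (0:ℝ) • v) := by
      rw [hx0]; exact h3.hasFDerivAt
    have h5 := h4.comp_hasDerivAt (0:ℝ) (hl 0)
    have h6 := h5.clm_apply (hasDerivAt_const (0:ℝ) v)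
    simpa [Function.comp_def] using h6

lemma lap_E6 (f : E6 → ℝ) (x : E6) :
    (Δ f) x = ∑ i : Fin 6, fderiv ℝ (fderiv ℝ f) x (EuclideanSpace.single i 1)
      (EuclideanSpace.single i 1) := by
  rw [laplacian_eq_iteratedFDeriv_orthonormalBasis f (EuclideanSpace.basisFun (Fin 6) ℝ)]
  simp [iteratedFDeriv_two_apply]

lemma lap_C (f : ℂ → ℝ) (x : ℂ) : (Δ f) x = fderiv ℝ (fderiv ℝ f) x 1 1 +
    fderiv ℝ (fderiv ℝ f) x Complex.I Complex.I := by
  rw [laplacian_eq_iteratedFDeriv_complexPlane]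
  simp [iteratedFDeriv_two_apply]

lemma ra_sq (x : E6) : ra x ^ 2 = x 0 ^ 2 + x 1 ^ 2 + x 2 ^ 2 := by
  unfold ra; rw [Real.sq_sqrt (by positivity)]

lemma rb_sq (x : E6) : rb x ^ 2 = x 3 ^ 2 + x 4 ^ 2 + x 5 ^ 2 := by
  unfold rb; rw [Real.sq_sqrt (by positivity)]

/-- norm along a coordinate line -/
lemma D2_norm {A B : ℝ} (hA : 0 < A) :
    D2 (fun t => Real.sqrt (A ^ 2 + 2 * B * t + t ^ 2)) 0 (B / A) ((1 - (B / A) ^ 2) / A) := by
  have h0 : A ^ 2 + 2 * B * 0 + 0 ^ 2 = A ^ 2 := by ring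
  have h1 : D2 (fun s => Real.sqrt s) (A ^ 2 + 2 * B * 0 + 0 ^ 2) (1 / (2 * A))
      (-(1 / (4 * A ^ 3))) := by
    rw [h0]
    have := D2.sqrt (t := A ^ 2) (by positivity)
    rwa [Real.sqrt_sq hA.le] at this
  have h2 := D2.comp (u := fun t => A ^ 2 + 2 * B * t + t ^ 2) (t := 0) h1 (D2.quad (A ^ 2) B)
  have e1 : 1 / (2 * A) * (2 * B) = B / A := by field_simp
  have e2 : -(1 / (4 * A ^ 3)) * (2 * B) * (2 * B) + 1 / (2 * A) * 2 = (1 - (B / A) ^ 2) / A := by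
    field_simp
    ring
  rw [e1, e2] at h2
  exact h2

lemma ra_line {x : E6} (i : Fin 6) (hi : i.1 < 3) (t : ℝ) :
    ra (x + t • EuclideanSpace.single i 1) = Real.sqrt (ra x ^ 2 + 2 * x i * t + t ^ 2) ∧
    rb (x + t • EuclideanSpace.single i 1) = rb x := by
  rw [ra_sq]
  unfold ra rb
  fin_cases i <;> simp at hi <;> simp <;> congr 1 <;> ring

lemma rb_line {x : E6} (i : Fin 6) (hi : 3 ≤ i.1) (t : ℝ) :
    rb (x + t • EuclideanSpace.single i 1) = Real.sqrt (rb x ^ 2 + 2 * x i * t + t ^ 2) ∧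
    ra (x + t • EuclideanSpace.single i 1) = ra x := by
  rw [rb_sq]
  unfold ra rb
  fin_cases i <;> simp at hi <;> simp <;> congr 1 <;> ring

/-- one radial factor -/
lemma D2_radial {U : ℝ → ℝ} {a b u1 u2 : ℝ} (ha : 0 < a) (hb : 0 < b) (hU : D2 U a u1 u2) :
    D2 (fun s => U s / (s * b)) a (u1 / (a * b) - U a / (a ^ 2 * b))
      (u2 / (a * b) - 2 * u1 / (a ^ 2 * b) + 2 * U a / (a ^ 3 * b)) := by
  have h1 := hU.mul ((D2.inv ha.ne').mul (D2.const b⁻¹ a))
  have e : (fun s => U s / (s * b)) = fun s => U s * (s⁻¹ * b⁻¹) := by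
    ext s; rw [div_eq_mul_inv, mul_inv]
  rw [e]
  have e1 : u1 * (a⁻¹ * b⁻¹) + U a * (-(a ^ 2)⁻¹ * b⁻¹ + a⁻¹ * 0) =
    u1 / (a * b) - U a / (a ^ 2 * b) := by
    field_simp
    ring
  have e2 : u2 * (a⁻¹ * b⁻¹) + 2 * u1 * (-(a ^ 2)⁻¹ * b⁻¹ + a⁻¹ * 0) +
      U a * (2 * (a ^ 3)⁻¹ * b⁻¹ + 2 * -(a ^ 2)⁻¹ * 0 + a⁻¹ * 0) =
      u2 / (a * b) - 2 * u1 / (a ^ 2 * b) + 2 * U a / (a ^ 3 * b) := by
    field_simp
    ring
  rw [e1, e2] at h1
  exact h1

lemma contDiff_lift {w : ℂ → ℝ} {x : E6} (ha : 0 < ra x) (hb : 0 < rb x)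
    (hw : ContDiffAt ℝ 2 w (ZZ x)) : ContDiffAt ℝ 2 (lift w) x := by
  have h1 : ContDiffAt ℝ 2 ra x := by
    unfold ra
    refine ContDiffAt.sqrt ?_ ?_
    · fun_prop
    · have := ra_sq x
      have h : 0 < ra x ^ 2 := by positivity
      rw [this] at h
      exact h.ne'
  have h2 : ContDiffAt ℝ 2 rb x := by
    unfold rb
    refine ContDiffAt.sqrt ?_ ?_
    · fun_prop
    · have := rb_sq x
      have h : 0 < rb x ^ 2 := by positivity
      rw [this] at h
      exact h.ne'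
  have h3 : ContDiffAt ℝ 2 ZZ x := by
    have : ZZ = fun x => Complex.equivRealProdCLM.symm (ra x, rb x) := by
      ext x
      apply Complex.ext <;> simp [ZZ]
    rw [this]
    exact (Complex.equivRealProdCLM.symm.contDiff).contDiffAt.comp x (h1.prodMk h2)
  unfold lift
  exact (hw.comp x h3).div (h1.mul h2) (mul_pos ha hb).ne'

end LEP.LIFT

namespace LEP

open LIFT in
/-- **LIFT** -/
theorem st_LIFT : ST_LIFT := by
  intro w x ha hb hw
  have hl := contDiff_lift ha hb hw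
  refine ⟨hl, ?_⟩
  rw [lap_E6, lap_C]
  set a := ra x with hadef
  set b := rb x with hbdef
  -- second derivatives of `w`
  have u1 : D2 (fun s => w ⟨s, b⟩) a (fderiv ℝ w (ZZ x) 1) (fderiv ℝ (fderiv ℝ w) (ZZ x) 1 1) := by
    have h := D2.of_contDiffAt hw 1
    have h0 : D2 (fun s => s - a) a 1 0 :=
      ⟨fun _ => 1, Eventually.of_forall (fun s => (hasDerivAt_id s).sub_const a), rfl,
        hasDerivAt_const a 1⟩
    have h1 := D2.comp (f := fun t : ℝ => w (ZZ x + t • 1)) (u := fun s => s - a) (t := a)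
      (by simpa using h) h0
    have e : (fun s => w (ZZ x + (s - a) • 1)) = fun s : ℝ => w ⟨s, b⟩ := by
      ext s
      congr 1
      apply Complex.ext
      · simp [ZZ, ← hadef]
      · simp [ZZ, ← hbdef]
    rw [e] at h1
    simpa using h1
  have u2 : D2 (fun s => w ⟨a, s⟩) b (fderiv ℝ w (ZZ x) Complex.I)
      (fderiv ℝ (fderiv ℝ w) (ZZ x) Complex.I Complex.I) := by
    have h := D2.of_contDiffAt hw Complex.I
    have h0 : D2 (fun s => s - b) b 1 0 :=
      ⟨fun _ => 1, Eventually.of_forall (fun s => (hasDerivAt_id s).sub_const b), rfl,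
        hasDerivAt_const b 1⟩
    have h1 := D2.comp (f := fun t : ℝ => w (ZZ x + t • Complex.I)) (u := fun s => s - b) (t := b)
      (by simpa using h) h0
    have e : (fun s => w (ZZ x + (s - b) • Complex.I)) = fun s : ℝ => w ⟨a, s⟩ := by
      ext s
      congr 1
      apply Complex.ext
      · simp [ZZ, ← hadef]
      · simp [ZZ, ← hbdef]
    rw [e] at h1
    simpa using h1
  have r1 := D2_radial ha hb u1
  have r2 := D2_radial hb ha u2
  have s1 : ∀ i : Fin 6, i.1 < 3 → fderiv ℝ (fderiv ℝ (lift w)) x (EuclideanSpace.single i 1)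
      (EuclideanSpace.single i 1) =
      (fderiv ℝ (fderiv ℝ w) (ZZ x) 1 1 / (a * b) - 2 * fderiv ℝ w (ZZ x) 1 / (a ^ 2 * b) +
        2 * w ⟨a, b⟩ / (a ^ 3 * b)) * (x i / a) * (x i / a) +
      (fderiv ℝ w (ZZ x) 1 / (a * b) - w ⟨a, b⟩ / (a ^ 2 * b)) * ((1 - (x i / a) ^ 2) / a) := by
    intro i hi
    have h := D2.of_contDiffAt hl (EuclideanSpace.single i (1:ℝ))
    have hn := D2_norm (A := a) (B := x i) ha
    have h0 : Real.sqrt (a ^ 2 + 2 * x i * 0 + 0 ^ 2) = a := by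
      rw [mul_zero, add_zero, zero_pow (by norm_num), add_zero, Real.sqrt_sq ha.le]
    have hc := D2.comp (f := fun s => w ⟨s, b⟩ / (s * b))
      (u := fun t => Real.sqrt (a ^ 2 + 2 * x i * t + t ^ 2)) (t := 0) (by rw [h0]; exact r1) hn
    have e : (fun t : ℝ => lift w (x + t • EuclideanSpace.single i 1)) =
        fun t => w ⟨Real.sqrt (a ^ 2 + 2 * x i * t + t ^ 2), b⟩ /
          (Real.sqrt (a ^ 2 + 2 * x i * t + t ^ 2) * b) := by
      ext t
      obtain ⟨e1, e2⟩ := ra_line (x := x) i hi t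
      unfold lift ZZ
      rw [e1, e2]
    rw [e] at h
    exact (h.unique hc).2
  have s2 : ∀ i : Fin 6, 3 ≤ i.1 → fderiv ℝ (fderiv ℝ (lift w)) x (EuclideanSpace.single i 1)
      (EuclideanSpace.single i 1) =
      (fderiv ℝ (fderiv ℝ w) (ZZ x) Complex.I Complex.I / (b * a) -
        2 * fderiv ℝ w (ZZ x) Complex.I / (b ^ 2 * a) +
        2 * w ⟨a, b⟩ / (b ^ 3 * a)) * (x i / b) * (x i / b) +
      (fderiv ℝ w (ZZ x) Complex.I / (b * a) - w ⟨a, b⟩ / (b ^ 2 * a)) *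
        ((1 - (x i / b) ^ 2) / b) := by
    intro i hi
    have h := D2.of_contDiffAt hl (EuclideanSpace.single i (1:ℝ))
    have hn := D2_norm (A := b) (B := x i) hb
    have h0 : Real.sqrt (b ^ 2 + 2 * x i * 0 + 0 ^ 2) = b := by
      rw [mul_zero, add_zero, zero_pow (by norm_num), add_zero, Real.sqrt_sq hb.le]
    have hc := D2.comp (f := fun s => w ⟨a, s⟩ / (s * a))
      (u := fun t => Real.sqrt (b ^ 2 + 2 * x i * t + t ^ 2)) (t := 0) (by rw [h0]; exact r2) hn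
    have e : (fun t : ℝ => lift w (x + t • EuclideanSpace.single i 1)) =
        fun t => w ⟨a, Real.sqrt (b ^ 2 + 2 * x i * t + t ^ 2)⟩ /
          (Real.sqrt (b ^ 2 + 2 * x i * t + t ^ 2) * a) := by
      ext t
      obtain ⟨e1, e2⟩ := rb_line (x := x) i hi t
      unfold lift ZZ
      rw [e1, e2, mul_comm (ra x)]
    rw [e] at h
    exact (h.unique hc).2
  have q1 : a ^ 2 = x 0 ^ 2 + x 1 ^ 2 + x 2 ^ 2 := ra_sq x
  have q2 : b ^ 2 = x 3 ^ 2 + x 4 ^ 2 + x 5 ^ 2 := rb_sq x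
  have q1' : x 2 ^ 2 = a ^ 2 - x 0 ^ 2 - x 1 ^ 2 := by linarith
  have q2' : x 5 ^ 2 = b ^ 2 - x 3 ^ 2 - x 4 ^ 2 := by linarith
  rw [Fin.sum_univ_six, s1 0 (by decide), s1 1 (by decide), s1 2 (by decide), s2 3 (by decide),
    s2 4 (by decide), s2 5 (by decide)]
  generalize fderiv ℝ (fderiv ℝ w) (ZZ x) 1 1 = A2
  generalize fderiv ℝ (fderiv ℝ w) (ZZ x) Complex.I Complex.I = B2
  generalize fderiv ℝ w (ZZ x) 1 = A1
  generalize fderiv ℝ w (ZZ x) Complex.I = B1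
  generalize w ⟨a, b⟩ = A0
  field_simp
  simp only [q1', q2']
  ring

end LEP
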